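import Mathlib
import Pool.Agent.Run7.h255.Kost.Defs
import Pool.Agent.Run7.h255.Kost.E9

open MeasureTheory Filter Run7.h255.Kost
open scoped ENNReal Topology

namespace Pool.Agent.Results.MP_dbbbd9_pr.KostlanLower

/-- An explicit lower bound for the number of components of a random real Kostlan plane curve:
the expected number of connected components of the zero set in the real projective plane of a
Kostlan form of degree `N` is at least `N / 500` for every `N ≥ 10000`, and so the constant
`c = lim E[B_N] / N` is at least `1 / 500`. -/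
theorem result :
    (∀ N : ℕ, 10000 ≤ N → (1 / 500 : ℝ≥0∞) * (N : ℝ≥0∞) ≤ expectedComponents N) ∧
    (∀ c : ℝ≥0∞, Tendsto (fun N : ℕ => expectedComponents N / (N : ℝ≥0∞)) atTop (𝓝 c) →
      (1 / 500 : ℝ≥0∞) ≤ c) := by
  have hcst : (1 / 500 : ℝ≥0∞) = ENNReal.ofReal (1 / 500) := by
    rw [ENNReal.ofReal_div_of_pos (by norm_num)]
    simp
  have h1 : ∀ N : ℕ, 10000 ≤ N → (1 / 500 : ℝ≥0∞) * (N : ℝ≥0∞) ≤ expectedComponents N := by
    intro N hN
    obtain ⟨n, rfl⟩ : ∃ n, N = n + 2 := ⟨N - 2, by omega⟩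
    rw [hcst]
    exact lower n (by omega)
  have h2 : ∀ᶠ N : ℕ in atTop, (1 / 500 : ℝ≥0∞) ≤ expectedComponents N / (N : ℝ≥0∞) := by
    filter_upwards [eventually_ge_atTop 10000] with N hN
    rw [ENNReal.le_div_iff_mul_le (Or.inl (by
      have : N ≠ 0 := by omega
      exact_mod_cast this)) (Or.inl (ENNReal.natCast_ne_top N))]
    exact h1 N hN
  exact ⟨h1, fun c hc => ge_of_tendsto hc h2⟩

end Pool.Agent.Results.MP_dbbbd9_pr.KostlanLower
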